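import Mathlib
import Pool.Agent.Helper93.FreudDefs
import Pool.Agent.Helper93.HypH
import Pool.Agent.Helper93.Parity

open Polynomial MeasureTheory Filter Topology

namespace Pool.Agent.Results.MP_e8d659_an.BoundedPerturbationDisproof

open Pool.Agent.Helper93

/-- Sequences form: if the base weight has the limits, the perturbed one does not. -/
theorem no_limit {a a' c : ℕ → ℝ} {g ℓ ℓ' : ℝ} (hg : 0 < g) (hg1 : g < 1) (hℓ : 0 < ℓ)
    (hℓ' : 0 < ℓ') (hc : ∀ᶠ n in atTop, 0 < c n)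
    (ha : Tendsto (fun n => a n / c n) atTop (𝓝 ℓ))
    (ha' : Tendsto (fun n => a' n / c n) atTop (𝓝 ℓ'))
    (h1 : ∀ N, ∃ n, N ≤ n ∧ (a' n / a n) ^ 2 ≤ (1 - g) ^ 2)
    (h2 : ∀ N, ∃ n, N ≤ n ∧ (a n / a' n) ^ 2 ≤ (1 - g) ^ 2) : False := by
  have r1 : Tendsto (fun n => (a' n / a n) ^ 2) atTop (𝓝 ((ℓ' / ℓ) ^ 2)) := by
    refine ((ha'.div ha hℓ.ne').pow 2).congr' ?_
    filter_upwards [hc] with n hn
    simp only [Pi.div_apply]
    congr 1
    field_simp
  have r2 : Tendsto (fun n => (a n / a' n) ^ 2) atTop (𝓝 ((ℓ / ℓ') ^ 2)) := by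
    refine ((ha.div ha' hℓ'.ne').pow 2).congr' ?_
    filter_upwards [hc] with n hn
    simp only [Pi.div_apply]
    congr 1
    field_simp
  have b1 : (ℓ' / ℓ) ^ 2 ≤ (1 - g) ^ 2 := by
    by_contra hcon
    push Not at hcon
    obtain ⟨N, hN⟩ := eventually_atTop.1 (r1.eventually_const_lt hcon)
    obtain ⟨n, hn, hle⟩ := h1 N
    linarith [hN n hn]
  have b2 : (ℓ / ℓ') ^ 2 ≤ (1 - g) ^ 2 := by
    by_contra hcon
    push Not at hcon
    obtain ⟨N, hN⟩ := eventually_atTop.1 (r2.eventually_const_lt hcon)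
    obtain ⟨n, hn, hle⟩ := h2 N
    linarith [hN n hn]
  have e : (ℓ' / ℓ) ^ 2 * (ℓ / ℓ') ^ 2 = 1 := by field_simp
  have l1 : (1 - g) ^ 2 < 1 := by nlinarith
  have := mul_le_mul b1 b2 (sq_nonneg _) (sq_nonneg _)
  rw [e] at this
  nlinarith [sq_nonneg (1 - g)]

/-- The main theorem: the limit relations of Q1 fail for some `Q` satisfying (H), for every choice
of the parameters, and even for arbitrarily small bounded smooth perturbations of any given `Q₀`. -/
theorem result (α A B : ℝ) (hα : 0 < α) (hA : 0 < A) (hB : 0 < B) (L Lstar : ℝ → ℝ)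
    (hL : SlowlyVarying L) (hLstar : IsDeBruijnConjugate L Lstar) :
    (∃ Q₀ : ℝ → ℝ, HypH α A B L Q₀) ∧
    ∀ Q₀ : ℝ → ℝ, HypH α A B L Q₀ → ∀ ε : ℝ, 0 < ε →
      ∃ Q : ℝ → ℝ, HypH α A B L Q ∧ (∀ x, |Q x - Q₀ x| ≤ ε) ∧
        ContDiff ℝ (⊤ : ℕ∞) (fun x => Q x - Q₀ x) ∧
        ∃ (p : ℕ → ℝ[X]) (a b : ℕ → ℝ), IsJacobi (fun x => Real.exp (-(2 * Q x))) p a b ∧
          (∀ ℓ m : ℝ, 0 < ℓ →
            ¬ (Tendsto (fun n => a n / scale α Lstar n) atTop (𝓝 ℓ) ∧
              Tendsto (fun n => b n / scale α Lstar n) atTop (𝓝 m))) ∧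
          ((∀ x, Q₀ (-x) = Q₀ x) → (∀ x, Q (-x) = Q x) ∧
            ∀ ℓ : ℝ, 0 < ℓ → ¬ Tendsto (fun n => a n / scale α Lstar n) atTop (𝓝 ℓ)) := by
  refine ⟨exists_hypH hL hα hA hB, ?_⟩
  intro Q₀ hQ₀ ε hε
  have hw : AdmW (fun x => Real.exp (-(2 * Q₀ x))) := hQ₀.admW
  -- for an even `Q` the coefficients `b_n` vanish
  have even_case : ∀ Q : ℝ → ℝ, (∀ x, Q (-x) = Q x) → ∀ ℓ : ℝ,
      (∀ m : ℝ, ¬ (Tendsto (fun n => ja (fun x => Real.exp (-(2 * Q x))) n / scale α Lstar n)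
        atTop (𝓝 ℓ) ∧ Tendsto (fun n => jb (fun x => Real.exp (-(2 * Q x))) n / scale α Lstar n)
        atTop (𝓝 m))) →
      ¬ Tendsto (fun n => ja (fun x => Real.exp (-(2 * Q x))) n / scale α Lstar n)
        atTop (𝓝 ℓ) := by
    intro Q hev ℓ hno ht
    have hev' : ∀ x, (fun x => Real.exp (-(2 * Q x))) (-x) = (fun x => Real.exp (-(2 * Q x))) x :=
      fun x => by simp only [hev]
    have hb : ∀ n, jb (fun x => Real.exp (-(2 * Q x))) n = 0 := by
      intro n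
      have hs : ((-1 : ℝ) ^ n) ^ 2 = 1 := by
        rw [← pow_mul, mul_comm, pow_mul]; norm_num
      unfold jb
      rw [ip_odd hev' _ _ hs (mop_parity hev' n), zero_div]
    apply hno 0
    refine ⟨ht, ?_⟩
    simp only [hb, zero_div]
    exact tendsto_const_nhds
  by_cases hlim : ∃ ℓ m : ℝ, 0 < ℓ ∧
      Tendsto (fun n => ja (fun x => Real.exp (-(2 * Q₀ x))) n / scale α Lstar n) atTop (𝓝 ℓ) ∧
      Tendsto (fun n => jb (fun x => Real.exp (-(2 * Q₀ x))) n / scale α Lstar n) atTop (𝓝 m)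
  · -- the base weight has the limits: perturb
    obtain ⟨ℓ, m, hℓ, hla, hlb⟩ := hlim
    set w₀ : ℝ → ℝ := fun x => Real.exp (-(2 * Q₀ x)) with hw₀
    have hJ := exists_isJacobi hw
    have hc : Tendsto (scale α Lstar) atTop atTop := c_atTop hLstar.slowlyVarying hα
    have hcr : Tendsto (fun n => scale α Lstar (n + 1) / scale α Lstar n) atTop (𝓝 1) :=
      c_ratio hLstar.slowlyVarying hα
    have hcpos : ∀ᶠ n in atTop, 0 < scale α Lstar n := hc.eventually_gt_atTop 0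
    have ha : Tendsto (ja w₀) atTop atTop := by
      have := hla.pos_mul_atTop hℓ hc
      refine this.congr' ?_
      filter_upwards [hcpos] with n hn
      field_simp
    have hapos : ∀ᶠ n in atTop, 0 < ja w₀ n := ha.eventually_gt_atTop 0
    have hca : Tendsto (fun n => scale α Lstar n / ja w₀ n) atTop (𝓝 ℓ⁻¹) := by
      refine (hla.inv₀ hℓ.ne').congr fun n => ?_
      rw [inv_div]
    have ha1 : Tendsto (fun n => ja w₀ (n + 1) / ja w₀ n) atTop (𝓝 1) := by
      have h1 := ((hla.comp (tendsto_add_atTop_nat 1)).mul hcr).mul hca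
      rw [mul_one, mul_inv_cancel₀ hℓ.ne'] at h1
      refine h1.congr' ?_
      filter_upwards [hcpos, hapos, (tendsto_add_atTop_nat 1).eventually hcpos] with n q1 q2 q3
      simp only [Function.comp]
      field_simp
    have hb : Tendsto (fun n => jb w₀ n / ja w₀ n) atTop (𝓝 (m * ℓ⁻¹)) := by
      refine (hlb.mul hca).congr' ?_
      filter_upwards [hcpos, hapos] with n q1 q2
      field_simp
    set τ : ℝ := Real.exp (-(2 * ε)) with hτd
    have hτ : 0 < τ := Real.exp_pos _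
    have hτ1 : τ < 1 := by
      rw [hτd, Real.exp_lt_one_iff]; linarith
    have hlog : Real.log τ⁻¹ = 2 * ε := by
      rw [Real.log_inv, hτd, Real.log_exp, neg_neg]
    obtain ⟨ψ, hψ1, hψ2, hψ3, hψ4⟩ := perturb hw hJ ha ha1 hb hτ hτ1
    rw [hlog] at hψ2
    have hψm : Measurable ψ := hψ1.continuous.measurable
    have hQ := hQ₀.perturb hL hα hA hB hψm hψ2
    have hwQ : (fun x => Real.exp (-(2 * (Q₀ x - ψ x / 2)))) =
        fun x => Real.exp (ψ x) * w₀ x := by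
      funext x
      rw [hw₀, ← Real.exp_add]
      congr 1
      ring
    refine ⟨fun x => Q₀ x - ψ x / 2, hQ, ?_, ?_, ?_⟩
    · intro x
      have : Q₀ x - ψ x / 2 - Q₀ x = -(ψ x / 2) := by ring
      rw [this, abs_neg, abs_div, abs_of_pos (by norm_num : (0 : ℝ) < 2)]
      linarith [hψ2 x]
    · have : (fun x => Q₀ x - ψ x / 2 - Q₀ x) = fun x => -(ψ x / 2) := by
        funext x; ring
      rw [this]
      exact (hψ1.div_const 2).neg
    · have hJ' := exists_isJacobi hQ.admW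
      have key : ∀ ℓ' m' : ℝ, 0 < ℓ' →
          ¬ (Tendsto (fun n => ja (fun x => Real.exp (-(2 * (Q₀ x - ψ x / 2)))) n /
            scale α Lstar n) atTop (𝓝 ℓ') ∧
            Tendsto (fun n => jb (fun x => Real.exp (-(2 * (Q₀ x - ψ x / 2)))) n /
            scale α Lstar n) atTop (𝓝 m')) := by
        rintro ℓ' m' hℓ' ⟨t1, -⟩
        rw [hwQ] at hJ' t1
        obtain ⟨k1, k2⟩ := hψ4 _ _ _ hJ'
        have hg : 0 < τ * (1 - τ) / 1600 := by
          have : 0 < 1 - τ := by linarith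
          positivity
        have hg1 : τ * (1 - τ) / 1600 < 1 := by nlinarith
        exact no_limit hg hg1 hℓ hℓ' hcpos hla t1 k1 k2
      refine ⟨_, _, _, hJ', key, ?_⟩
      intro hev
      have hev0 : ∀ x, w₀ (-x) = w₀ x := fun x => by simp only [hw₀, hev]
      have hψe : ∀ x, ψ (-x) = ψ x := hψ3 (onp_sq_even hev0)
      have hQe : ∀ x, Q₀ (-x) - ψ (-x) / 2 = Q₀ x - ψ x / 2 := fun x => by rw [hev, hψe]
      exact ⟨hQe, fun ℓ' hℓ' => even_case _ hQe ℓ' fun m' => key ℓ' m' hℓ'⟩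
  · -- the base weight itself is a counterexample
    have key : ∀ ℓ m : ℝ, 0 < ℓ →
        ¬ (Tendsto (fun n => ja (fun x => Real.exp (-(2 * Q₀ x))) n / scale α Lstar n)
          atTop (𝓝 ℓ) ∧
          Tendsto (fun n => jb (fun x => Real.exp (-(2 * Q₀ x))) n / scale α Lstar n)
          atTop (𝓝 m)) := by
      intro ℓ m hℓ hcon
      exact hlim ⟨ℓ, m, hℓ, hcon⟩
    refine ⟨Q₀, hQ₀, fun x => by simp [hε.le], ?_, _, _, _, exists_isJacobi hw, key, ?_⟩
    · simp only [sub_self]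
      exact contDiff_const
    · intro hev
      exact ⟨hev, fun ℓ hℓ => even_case _ hev ℓ fun m => key ℓ m hℓ⟩

end Pool.Agent.Results.MP_e8d659_an.BoundedPerturbationDisproof
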